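import Pool.Agent.helper60.DK.Spec

set_option autoImplicit false

namespace Pool.Agent.helper60.DK

open Polynomial Finset

theorem P5_aeval (n : ℕ) (x : ℚ) : aeval x (Dz n)
    = ∑ k ∈ range (n + 1), ((n.choose k * (n + k).choose k : ℕ) : ℚ) * x ^ k := by
  unfold Dz
  rw [map_sum]
  refine Finset.sum_congr rfl (fun k _ => ?_)
  rw [map_mul, map_pow, aeval_X, aeval_C]
  simp

theorem P5_S (x : ℚ) : aeval x (Sz 5) = (aeval x (Dz 0)) ^ 3 - (aeval x (Dz 1)) ^ 3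
    + (aeval x (Dz 2)) ^ 3 - (aeval x (Dz 3)) ^ 3 + (aeval x (Dz 4)) ^ 3 := by
  unfold Sz
  simp only [Finset.sum_range_succ, Finset.sum_range_zero, map_add, map_mul, map_pow, map_neg,
    map_one, map_zero]
  ring

theorem P5_0 (x : ℚ) : aeval x (Dz 0) = 1 := by
  rw [P5_aeval]
  simp [Finset.sum_range_succ, Nat.choose]

theorem P5_1 (x : ℚ) : aeval x (Dz 1) = 1 + 2 * x := by
  rw [P5_aeval]
  simp [Finset.sum_range_succ, Nat.choose]

theorem P5_2 (x : ℚ) : aeval x (Dz 2) = 1 + 6 * x + 6 * x ^ 2 := by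
  rw [P5_aeval]
  norm_num [Finset.sum_range_succ, Nat.choose]

theorem P5_3 (x : ℚ) : aeval x (Dz 3) = 1 + 12 * x + 30 * x ^ 2 + 20 * x ^ 3 := by
  rw [P5_aeval]
  norm_num [Finset.sum_range_succ, Nat.choose]

theorem P5_4 (x : ℚ) : aeval x (Dz 4)
    = 1 + 20 * x + 90 * x ^ 2 + 140 * x ^ 3 + 70 * x ^ 4 := by
  rw [P5_aeval]
  norm_num [Finset.sum_range_succ, Nat.choose]

theorem P5_den (a : ℤ) (b : ℕ) (hb : b ≠ 0) (h : ¬ 5 ∣ b) : ¬ 5 ∣ ((a : ℚ) / (b : ℚ)).den := by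
  intro h5
  apply h
  have h1 : (((a : ℚ) / (b : ℚ)).den : ℤ) ∣ (b : ℤ) := by
    have h0 := Rat.den_dvd a (b : ℤ)
    rw [Rat.divInt_eq_div, Int.cast_natCast] at h0
    exact h0
  have h2 : ((a : ℚ) / (b : ℚ)).den ∣ b := by exact_mod_cast h1
  exact h5.trans h2

theorem P5 : P5_stmt := by
  intro x hx
  rcases hx with rfl | rfl | rfl
  · refine ⟨((735693545 : ℤ) : ℚ) / ((1 : ℕ) : ℚ), P5_den _ _ (by norm_num) (by norm_num), ?_⟩
    rw [P5_S, P5_0, P5_1, P5_2, P5_3, P5_4]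
    norm_num
  · refine ⟨((78235 : ℤ) : ℚ) / ((2097152 : ℕ) : ℚ), P5_den _ _ (by norm_num) (by norm_num), ?_⟩
    rw [P5_S, P5_0, P5_1, P5_2, P5_3, P5_4]
    norm_num
  · refine ⟨((40699040515 : ℤ) : ℚ) / ((8589934592 : ℕ) : ℚ), P5_den _ _ (by norm_num)
      (by norm_num), ?_⟩
    rw [P5_S, P5_0, P5_1, P5_2, P5_3, P5_4]
    norm_num

end Pool.Agent.helper60.DK
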